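import Pool.Agent.H17.CF.G.Final

/-!
# MP_9b819f_lc: categoricity of complete finite second-order theories can be forced at every uncountable cardinal

Definitions: `CTM M` (H17/Omega/Defs: countable transitive model of ZFC), `Fr M P R g`, `ExtZ M g` (H17/CF/FX/SetG:
generic filter of a preorder of `M`, generic extension), `TypeA`, `TypeB` (H17/CF/G/Defs: cardinals of type (a), (b) in
a model), second-order logic in a model: `Voc`, `Fo`, `SatF`, `Str`, `Complete`, `Categorical`, `CatAt` (H17/CF/SO).
-/

set_option autoImplicit false

open Pool.Agent.H17.Omega Pool.Agent.H17.CF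

namespace Pool.Agent.Results.MP_9b819f_lc.ForcingCategoricity

/-- Let `M` be a countable transitive model of ZFC and `κ` an uncountable cardinal of `M`. There is a generic
extension `N = M[g]` of `M` in which `κ` is still a cardinal and every finite complete second-order theory with a
model of cardinality `κ` is categorical; moreover if `κ` is of type (a) (an uncountable regular limit cardinal that is
not measurable) in `M` then it is of type (a) in `N`, and if `κ` is of type (b) (a singular cardinal of cofinality `ω`)
in `M` then it is of type (b) in `N`. -/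
theorem result (M : Set ZFSet.{0}) (hM : CTM M) (κ : Ordinal.{0}) (hκ : Ordinal.omega0 < κ) (hc : IsCardN M κ) :
    ∃ P R g, Fr M P R g ∧ IsCardN (ExtZ M g) κ ∧ CatAt (ExtZ M g) κ ∧
      (TypeA M κ → TypeA (ExtZ M g) κ) ∧ (TypeB M κ → TypeB (ExtZ M g) κ) := by
  obtain ⟨P, R, g, hg, h1, h2, h3, h4, h5, h6⟩ := final hM hκ hc
  exact ⟨P, R, g, hg, h1, h6, fun h => ⟨hκ, h1, h2 h.2.2.1, h3 h.2.2.2.1, h5⟩, fun h => ⟨hκ, h1, h4 h.2.2⟩⟩

end Pool.Agent.Results.MP_9b819f_lc.ForcingCategoricity
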